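import Pool.Agent.Lib.MP_fa837f_gt.TS.Iface

/-!
COMB: two-sums, at the level of volumes.
-/

set_option autoImplicit false

open MeasureTheory Set Filter Topology

namespace Pool.Agent.Lib.MP_fa837f_gt.TS.H1

lemma sec_nonneg {k n : ℕ} (L : (ℝ × (Fin k → ℝ)) →ₗ[ℝ] (Fin n → ℝ)) (t : Fin n → ℝ) (z : ℝ) :
    0 ≤ sec L t z := ENNReal.toReal_nonneg

lemma sec_abs (h1 : Sec1Statement) {k n : ℕ} (L : (ℝ × (Fin k → ℝ)) →ₗ[ℝ] (Fin n → ℝ))
    (hL : Function.Injective L) (t : Fin n → ℝ) (z : ℝ) : sec L t z = sec L t |z| := by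
  rcases le_total 0 z with h | h
  · rw [abs_of_nonneg h]
  · rw [abs_of_nonpos h, (h1 k n L hL t).2.1]

lemma sec_meas (h1 : Sec1Statement) {k n : ℕ} (L : (ℝ × (Fin k → ℝ)) →ₗ[ℝ] (Fin n → ℝ))
    (hL : Function.Injective L) (t : Fin n → ℝ) : Measurable (sec L t) := by
  have hA : Antitone fun z : ℝ => sec L t (max z 0) := by
    intro x y hxy
    exact (h1 k n L hL t).2.2.1 (mem_Ici.2 (le_max_right _ _)) (mem_Ici.2 (le_max_right _ _))
      (max_le_max hxy le_rfl)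
  have hE : sec L t = (fun z : ℝ => sec L t (max z 0)) ∘ fun z => |z| := by
    funext z
    simp only [Function.comp]
    rw [max_eq_left (abs_nonneg z)]
    exact sec_abs h1 L hL t z
  rw [hE]
  exact hA.measurable.comp measurable_id.abs

lemma prod_int (h1 : Sec1Statement) {k l n m : ℕ} (L : (ℝ × (Fin k → ℝ)) →ₗ[ℝ] (Fin n → ℝ))
    (M : (ℝ × (Fin l → ℝ)) →ₗ[ℝ] (Fin m → ℝ)) (hL : Function.Injective L)
    (hM : Function.Injective M) (t : Fin n → ℝ) (s : Fin m → ℝ) :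
    Integrable fun z => sec L t z * sec M s z := by
  obtain ⟨R, hR⟩ := (h1 k n L hL t).2.2.2.1
  have hb1 : ∀ z, sec L t z ≤ sec L t 0 := by
    intro z
    rw [sec_abs h1 L hL t z]
    exact (h1 k n L hL t).2.2.1 (mem_Ici.2 le_rfl) (mem_Ici.2 (abs_nonneg z)) (abs_nonneg z)
  have hb2 : ∀ z, sec M s z ≤ sec M s 0 := by
    intro z
    rw [sec_abs h1 M hM s z]
    exact (h1 l m M hM s).2.2.1 (mem_Ici.2 le_rfl) (mem_Ici.2 (abs_nonneg z)) (abs_nonneg z)
  have hsupp : Function.support (fun z => sec L t z * sec M s z) ⊆ Icc (-R) R := by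
    intro z hz
    by_contra hcon
    apply hz
    have h2 : R ≤ |z| := by
      by_contra h3
      push Not at h3
      exact hcon ⟨(abs_lt.1 h3).1.le, (abs_lt.1 h3).2.le⟩
    simp only
    rw [sec_abs h1 L hL t z, hR _ h2, zero_mul]
  rw [← integrableOn_iff_integrable_of_support_subset hsupp]
  refine Measure.integrableOn_of_bounded (M := sec L t 0 * sec M s 0) ?_ ?_ ?_
  · simp [Real.volume_Icc]
  · exact ((sec_meas h1 L hL t).mul (sec_meas h1 M hM s)).aestronglyMeasurable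
  · refine Eventually.of_forall fun z => ?_
    rw [Real.norm_of_nonneg (mul_nonneg (sec_nonneg L t z) (sec_nonneg M s z))]
    exact mul_le_mul (hb1 z) (hb2 z) (sec_nonneg M s z) (sec_nonneg L t 0)

lemma prod_pos (h1 : Sec1Statement) {k l n m : ℕ} (L : (ℝ × (Fin k → ℝ)) →ₗ[ℝ] (Fin n → ℝ))
    (M : (ℝ × (Fin l → ℝ)) →ₗ[ℝ] (Fin m → ℝ)) (hL : Function.Injective L)
    (hM : Function.Injective M) (t : Fin n → ℝ) (s : Fin m → ℝ) :
    0 < ∫ z, sec L t z * sec M s z := by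
  obtain ⟨r₁, hr₁, hp₁⟩ := (h1 k n L hL t).2.2.2.2
  obtain ⟨r₂, hr₂, hp₂⟩ := (h1 l m M hM s).2.2.2.2
  rw [integral_pos_iff_support_of_nonneg
    (fun z => mul_nonneg (sec_nonneg L t z) (sec_nonneg M s z)) (prod_int h1 L M hL hM t s)]
  have hr : 0 < min r₁ r₂ := lt_min hr₁ hr₂
  refine lt_of_lt_of_le ?_ (measure_mono (s := Ioo (0 : ℝ) (min r₁ r₂)) ?_)
  · rw [Real.volume_Ioo]
    simpa using hr
  · intro z hz
    have hz0 : (0 : ℝ) ≤ z := hz.1.le
    have hz1 : z ≤ r₁ := hz.2.le.trans (min_le_left _ _)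
    have hz2 : z ≤ r₂ := hz.2.le.trans (min_le_right _ _)
    have ha := (h1 k n L hL t).2.2.1 (mem_Ici.2 hz0) (mem_Ici.2 hr₁.le) hz1
    have hb := (h1 l m M hM s).2.2.1 (mem_Ici.2 hz0) (mem_Ici.2 hr₂.le) hz2
    exact (mul_pos (lt_of_lt_of_le hp₁ ha) (lt_of_lt_of_le hp₂ hb)).ne'

/-- `log slab` along a line is admissible. -/
lemma adm (h2 : Sec2Statement) (h3 : Sec3Statement) {k n : ℕ}
    (L : (ℝ × (Fin k → ℝ)) →ₗ[ℝ] (Fin n → ℝ)) (hL : Function.Injective L) (hc : SlabLC L)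
    (t₀ d : Fin n → ℝ) :
    Adm fun θ ρ => Real.log (slab L (fun i => t₀ i + θ * d i) ρ) := by
  have hpos := (h2 k n L hL).1
  have hmon := (h2 k n L hL).2.1
  have hhom := (h2 k n L hL).2.2
  refine ⟨⟨convex_univ, ?_⟩, ?_, ?_, ?_⟩
  · rintro ⟨θ₁, ρ₁⟩ - ⟨θ₂, ρ₂⟩ - a b ha hb hab
    have h := hc.2 (mem_univ ((fun i => t₀ i + θ₁ * d i, ρ₁) : (Fin n → ℝ) × ℝ))
      (mem_univ ((fun i => t₀ i + θ₂ * d i, ρ₂) : (Fin n → ℝ) × ℝ)) ha hb hab
    refine h.trans (le_of_eq ?_)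
    simp only [smul_eq_mul, Prod.smul_mk, Prod.mk_add_mk]
    congr 2
    funext i
    simp only [Pi.add_apply, Pi.smul_apply, smul_eq_mul]
    have : b = 1 - a := by linarith
    rw [this]
    ring
  · intro θ ρ ρ' h
    exact Real.log_le_log (hpos _ _) ((h3 k n L hL _).1 ρ ρ' h)
  · intro θ ρ ρ' h
    have h4 := Real.log_le_log (hpos _ _) ((h3 k n L hL (fun i => t₀ i + θ * d i)).2.1 ρ ρ' h)
    rw [Real.log_mul (Real.exp_pos _).ne' (hpos _ _).ne', Real.log_exp] at h4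
    linarith
  · refine ⟨(k + 1) * ∑ i, |d i|, fun θ θ' ρ => ?_⟩
    have key : ∀ θ θ' : ℝ, Real.log (slab L (fun i => t₀ i + θ' * d i) ρ) ≤
        Real.log (slab L (fun i => t₀ i + θ * d i) ρ) + (k + 1) * ((∑ i, |d i|) * |θ - θ'|) := by
      intro θ θ'
      set s : ℝ := (∑ i, |d i|) * |θ - θ'| with hs
      have hs0 : 0 ≤ s := mul_nonneg (Finset.sum_nonneg fun i _ => abs_nonneg _) (abs_nonneg _)
      have e1 : slab L (fun i => t₀ i + θ' * d i) ρ ≤
          slab L (fun i => (t₀ i + θ * d i) + s) ρ := by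
        refine hmon _ _ (fun i => ?_) ρ
        have h5 : |d i| ≤ ∑ j, |d j| :=
          Finset.single_le_sum (f := fun j => |d j|) (fun j _ => abs_nonneg _) (Finset.mem_univ i)
        have h6 : (θ' - θ) * d i ≤ s := by
          calc (θ' - θ) * d i ≤ |(θ' - θ) * d i| := le_abs_self _
            _ = |θ - θ'| * |d i| := by rw [abs_mul, abs_sub_comm]
            _ ≤ |θ - θ'| * ∑ j, |d j| := mul_le_mul_of_nonneg_left h5 (abs_nonneg _)
            _ = s := by rw [hs]; ring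
        linarith
      have e2 : slab L (fun i => (t₀ i + θ * d i) + s) ρ ≤
          slab L (fun i => (t₀ i + θ * d i) + s) (ρ + s) :=
        (h3 k n L hL _).1 ρ (ρ + s) (by linarith)
      have e3 := hhom (fun i => t₀ i + θ * d i) s ρ
      have e4 := Real.log_le_log (hpos _ _) ((e1.trans e2).trans_eq e3)
      rw [Real.log_mul (Real.exp_pos _).ne' (hpos _ _).ne', Real.log_exp] at e4
      linarith
    have k1 := key θ θ'
    have k2 := key θ' θ
    rw [abs_sub_comm θ' θ] at k2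
    rw [abs_le]
    constructor <;> nlinarith [k1, k2]

lemma coer (h2 : Sec2Statement) (h3 : Sec3Statement) {k l n m : ℕ}
    (L : (ℝ × (Fin k → ℝ)) →ₗ[ℝ] (Fin n → ℝ)) (M : (ℝ × (Fin l → ℝ)) →ₗ[ℝ] (Fin m → ℝ))
    (hL : Function.Injective L) (hM : Function.Injective M) (t : Fin n → ℝ) (s : Fin m → ℝ) :
    Coer fun ρ => Real.log (slab L t ρ) + Real.log (slab M s ρ) - ρ := by
  have hpL := (h2 k n L hL).1 t
  have hpM := (h2 l m M hM).1 s
  obtain ⟨c₁, hc₁⟩ := (h3 k n L hL t).2.2.1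
  obtain ⟨c₂, hc₂⟩ := (h3 l m M hM s).2.2.1
  obtain ⟨a₁, ha₁⟩ := (h3 k n L hL t).2.2.2.1
  obtain ⟨a₂, ha₂⟩ := (h3 l m M hM s).2.2.2.1
  have pa₁ : 0 < a₁ := by
    have := (hpL 0).trans_le (ha₁ 0)
    simpa using this
  have pa₂ : 0 < a₂ := by
    have := (hpM 0).trans_le (ha₂ 0)
    simpa using this
  constructor
  · refine tendsto_atBot_mono (f := fun ρ => (Real.log a₁ + Real.log a₂) + ρ) (fun ρ => ?_)
      (tendsto_atBot_add_const_left _ _ tendsto_id)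
    · have e1 := Real.log_le_log (hpL ρ) (ha₁ ρ)
      have e2 := Real.log_le_log (hpM ρ) (ha₂ ρ)
      rw [Real.log_mul pa₁.ne' (Real.exp_pos _).ne', Real.log_exp] at e1
      rw [Real.log_mul pa₂.ne' (Real.exp_pos _).ne', Real.log_exp] at e2
      linarith
  · refine tendsto_atBot_mono (f := fun ρ => (Real.log c₁ + Real.log c₂) + -ρ) (fun ρ => ?_)
      (tendsto_atBot_add_const_left _ _ tendsto_neg_atTop_atBot)
    · have e1 := Real.log_le_log (hpL ρ) (hc₁ ρ)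
      have e2 := Real.log_le_log (hpM ρ) (hc₂ ρ)
      linarith

theorem comb (h0 : Ts1Statement) (h1 : Sec1Statement) (h2 : Sec2Statement) (h3 : Sec3Statement)
    (h4 : Sec4Statement) : CombStatement := by
  intro k l n m L M hL hM hcL hcM
  refine ⟨fun t s => prod_pos h1 L M hL hM t s, convex_univ, ?_⟩
  rintro ⟨t₀, s₀⟩ - ⟨t₁, s₁⟩ - a b ha hb hab
  have key := h0 (fun θ ρ => Real.log (slab L (fun i => t₀ i + θ * (t₁ i - t₀ i)) ρ))
    (fun θ ρ => Real.log (slab M (fun i => s₀ i + θ * (s₁ i - s₀ i)) ρ))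
    (adm h2 h3 L hL hcL t₀ (fun i => t₁ i - t₀ i)) (adm h2 h3 M hM hcM s₀ (fun i => s₁ i - s₀ i))
    (fun θ => coer h2 h3 L M hL hM _ _)
  have hval : ∀ θ : ℝ, Real.log (∫ ρ, Real.exp
      (Real.log (slab L (fun i => t₀ i + θ * (t₁ i - t₀ i)) ρ) +
        Real.log (slab M (fun i => s₀ i + θ * (s₁ i - s₀ i)) ρ) - ρ) *
      (deriv (fun ρ => Real.log (slab L (fun i => t₀ i + θ * (t₁ i - t₀ i)) ρ)) ρ *
        deriv (fun ρ => Real.log (slab M (fun i => s₀ i + θ * (s₁ i - s₀ i)) ρ)) ρ)) =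
      Real.log 2 + Real.log (∫ z, sec L (fun i => t₀ i + θ * (t₁ i - t₀ i)) z *
        sec M (fun i => s₀ i + θ * (s₁ i - s₀ i)) z) := by
    intro θ
    rw [h4 k l n m L M hL hM, Real.log_mul two_ne_zero (prod_pos h1 L M hL hM _ _).ne']
  have h5 := key.2 (mem_univ (0 : ℝ)) (mem_univ (1 : ℝ)) ha hb hab
  simp only [smul_eq_mul] at h5
  rw [hval, hval, hval] at h5
  have z0 : (fun i => t₀ i + (0 : ℝ) * (t₁ i - t₀ i)) = t₀ := by funext i; ring
  have z1 : (fun i => t₀ i + (1 : ℝ) * (t₁ i - t₀ i)) = t₁ := by funext i; ring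
  have y0 : (fun i => s₀ i + (0 : ℝ) * (s₁ i - s₀ i)) = s₀ := by funext i; ring
  have y1 : (fun i => s₀ i + (1 : ℝ) * (s₁ i - s₀ i)) = s₁ := by funext i; ring
  have z2 : (fun i => t₀ i + (a * 0 + b * 1) * (t₁ i - t₀ i)) = a • t₀ + b • t₁ := by
    funext i
    simp only [Pi.add_apply, Pi.smul_apply, smul_eq_mul]
    have : a = 1 - b := by linarith
    rw [this]; ring
  have y2 : (fun i => s₀ i + (a * 0 + b * 1) * (s₁ i - s₀ i)) = a • s₀ + b • s₁ := by
    funext i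
    simp only [Pi.add_apply, Pi.smul_apply, smul_eq_mul]
    have : a = 1 - b := by linarith
    rw [this]; ring
  rw [z0, z1, y0, y1, z2, y2] at h5
  simp only [smul_eq_mul, Prod.smul_mk, Prod.mk_add_mk]
  have h6 : a * (Real.log 2 + Real.log (∫ z, sec L t₀ z * sec M s₀ z)) +
      b * (Real.log 2 + Real.log (∫ z, sec L t₁ z * sec M s₁ z)) =
      Real.log 2 + (a * Real.log (∫ z, sec L t₀ z * sec M s₀ z) +
        b * Real.log (∫ z, sec L t₁ z * sec M s₁ z)) := by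
    have : a = 1 - b := by linarith
    rw [this]; ring
  rw [h6] at h5
  linarith

end Pool.Agent.Lib.MP_fa837f_gt.TS.H1
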