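import Pool.Agent.Lib.MP_fa837f_gt.TS.Iface

/-!
SEC4: the integral of the one variable theorem is the volume of the two-sum.
-/

set_option autoImplicit false

open MeasureTheory Set Filter Topology

namespace Pool.Agent.Lib.MP_fa837f_gt.TS.H1

theorem sec4 (h1 : Sec1Statement) (h2 : Sec2Statement) (h3 : Sec3Statement) : Sec4Statement := by
  intro k l n m L M hL hM t s
  have eL := (h1 k n L hL t).2.1
  have eM := (h1 l m M hM s).2.1
  have pL := (h2 k n L hL).1 t
  have pM := (h2 l m M hM).1 s
  have dL := (h3 k n L hL t).2.2.2.2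
  have dM := (h3 l m M hM s).2.2.2.2
  set F : ℝ → ℝ := fun z => sec L t z * sec M s z with hF
  have hae : (fun ρ => Real.exp (Real.log (slab L t ρ) + Real.log (slab M s ρ) - ρ) *
        (deriv (fun x => Real.log (slab L t x)) ρ * deriv (fun x => Real.log (slab M s x)) ρ))
      =ᵐ[volume] fun ρ => 4 * (|Real.exp ρ| • F (Real.exp ρ)) := by
    filter_upwards [dL, dM] with ρ hρL hρM
    rw [hρL.deriv, hρM.deriv, Real.exp_sub, Real.exp_add, Real.exp_log (pL ρ),
      Real.exp_log (pM ρ), abs_of_pos (Real.exp_pos ρ), hF]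
    have h5 := (pL ρ).ne'
    have h6 := (pM ρ).ne'
    have h7 := (Real.exp_pos ρ).ne'
    simp only [smul_eq_mul]
    field_simp
    ring
  rw [integral_congr_ae hae, integral_const_mul]
  have hsub := integral_image_eq_integral_abs_deriv_smul (s := (univ : Set ℝ)) (f := Real.exp)
    (f' := Real.exp) MeasurableSet.univ (fun x _ => (Real.hasDerivAt_exp x).hasDerivWithinAt)
    (Real.exp_injective.injOn) F
  rw [image_univ, Real.range_exp, Measure.restrict_univ] at hsub
  rw [← hsub]
  have hab := integral_comp_abs (f := F)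
  have hev : (fun x : ℝ => F |x|) = F := by
    funext x
    rcases le_total 0 x with h | h
    · rw [abs_of_nonneg h]
    · rw [abs_of_nonpos h, hF]
      simp only [eL, eM]
  rw [hev] at hab
  rw [hab]
  ring

end Pool.Agent.Lib.MP_fa837f_gt.TS.H1
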